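import Mathlib
import Pool.Agent.Work.MP_71fd89_ag.JTransp

/-! # The strong Jacobi bound at components where the linearized equations have corank
at most one -/

set_option autoImplicit false

namespace Pool.Agent.Results.MP_71fd89_ag.CorankOne

/-- For `n` ordinary differential polynomials in `n` unknowns over a differential field of
characteristic zero, let `P` be a component (minimal prime over the differential ideal generated
by them) of finite transcendence degree such that, for some `i0`, the gradients modulo `P` of all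
derivatives of the `u i`, `i` different from `i0`, are linearly independent. Then the tropical
determinant of the order matrix (strong convention, absent variable = bottom) is finite and bounds
the transcendence degree. -/
theorem result :
  ∀ (K : Type) [Field K] [CharZero K] (d : Derivation ℤ K K) (n : ℕ)
    (D : Derivation ℤ (MvPolynomial (Fin n × ℕ) K) (MvPolynomial (Fin n × ℕ) K)),
    (∀ c : K, D (MvPolynomial.C c) = MvPolynomial.C (d c)) →
    (∀ j : Fin n, ∀ r : ℕ, D (MvPolynomial.X (j, r)) = MvPolynomial.X (j, r + 1)) →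
    ∀ (u : Fin n → MvPolynomial (Fin n × ℕ) K),
    ∀ P ∈ (Ideal.span {g : MvPolynomial (Fin n × ℕ) K |
        ∃ (i : Fin n) (k : ℕ), g = (⇑D)^[k] (u i)}).minimalPrimes,
    Algebra.trdeg K (MvPolynomial (Fin n × ℕ) K ⧸ P) < Cardinal.aleph0 →
    (∃ i0 : Fin n, LinearIndependent (MvPolynomial (Fin n × ℕ) K ⧸ P)
      (fun (p : {i : Fin n // i ≠ i0} × ℕ) (v : Fin n × ℕ) =>
        Ideal.Quotient.mk P (MvPolynomial.pderiv v ((⇑D)^[p.2] (u p.1))))) →
    ∃ m : ℕ,
      (Finset.univ.sup (fun ρ : Equiv.Perm (Fin n) =>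
          ∑ i : Fin n, (u i).vars.sup
            (fun v => if v.1 = ρ i then (v.2 : WithBot ℕ) else (⊥ : WithBot ℕ)))) =
              (m : WithBot ℕ) ∧
      Algebra.trdeg K (MvPolynomial (Fin n × ℕ) K ⧸ P) ≤ (m : Cardinal) := by
  intro K _ _ d n D hDC hDX u P hP hfin hLI
  obtain ⟨i0, hLI⟩ := hLI
  obtain ⟨t, ht⟩ := Cardinal.lt_aleph0.1 hfin
  obtain ⟨m, hm, htm⟩ := Pool.Agent.JB.tdet_of_potentials u t (fun α β hf =>
    Pool.Agent.JB.red_corank (Pool.Agent.JB.ofDerivation d)
      (Pool.Agent.JB.ofDerivation D) hDC hDX u P hP t ht i0 hLI α β hf)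
  refine ⟨m, hm, ?_⟩
  rw [ht]
  exact_mod_cast htm

end Pool.Agent.Results.MP_71fd89_ag.CorankOne
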