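import Mathlib
import Pool.Agent.Work.MP_71fd89_ag.JAll

/-! # A bound for all systems in `n` unknowns by a modified tropical determinant -/

set_option autoImplicit false

namespace Pool.Agent.Results.MP_71fd89_ag.GeneralBound

/-- For `n` ordinary differential polynomials in `n` unknowns, `n` at least `2`, over a
differential field of characteristic zero, let `i1` and `i3` be different indices with `u i3`
nonzero. Every component (minimal prime over the differential ideal generated by the `u i`) of
finite transcendence degree has degree at most the tropical determinant of the matrix obtained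
from the order matrix (absent variable = bottom) by replacing the row `i1` by the entrywise maximum
of all rows, and each row other than `i1` and `i3` by the entrywise maximum of the rows other than
`i1`; this tropical determinant is then finite. -/
theorem result :
  ∀ (K : Type) [Field K] [CharZero K] (d : Derivation ℤ K K) (n : ℕ), 2 ≤ n →
    ∀ (D : Derivation ℤ (MvPolynomial (Fin n × ℕ) K) (MvPolynomial (Fin n × ℕ) K)),
    (∀ c : K, D (MvPolynomial.C c) = MvPolynomial.C (d c)) →
    (∀ j : Fin n, ∀ r : ℕ, D (MvPolynomial.X (j, r)) = MvPolynomial.X (j, r + 1)) →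
    ∀ (u : Fin n → MvPolynomial (Fin n × ℕ) K) (i1 i3 : Fin n), i3 ≠ i1 → u i3 ≠ 0 →
    ∀ P ∈ (Ideal.span {g : MvPolynomial (Fin n × ℕ) K |
        ∃ (i : Fin n) (k : ℕ), g = (⇑D)^[k] (u i)}).minimalPrimes,
    Algebra.trdeg K (MvPolynomial (Fin n × ℕ) K ⧸ P) < Cardinal.aleph0 →
    ∃ m : ℕ,
      (Finset.univ.sup (fun ρ : Equiv.Perm (Fin n) =>
          ∑ i : Fin n, (if i = i1 then Finset.univ.biUnion (fun k => (u k).vars)
            else if i = i3 then (u i3).vars
            else (Finset.univ.erase i1).biUnion (fun k => (u k).vars)).sup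
            (fun v => if v.1 = ρ i then (v.2 : WithBot ℕ) else (⊥ : WithBot ℕ)))) =
              (m : WithBot ℕ) ∧
      Algebra.trdeg K (MvPolynomial (Fin n × ℕ) K ⧸ P) ≤ (m : Cardinal) := by
  intro K _ _ d n hn D hDC hDX u i1 i3 h13 hu3 P hP hfin
  obtain ⟨t, ht⟩ := Cardinal.lt_aleph0.1 hfin
  obtain ⟨m, hm, htm⟩ := Pool.Agent.JB.tdet_of_potentials'
    (Pool.Agent.JB.allV (fun i => (u i).vars) i1 i3) t (fun α β hf =>
    Pool.Agent.JB.red_all hn (Pool.Agent.JB.ofDerivation d)
      (Pool.Agent.JB.ofDerivation D) hDC hDX u P hP t ht i1 i3 h13 hu3 α β hf)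
  refine ⟨m, hm, ?_⟩
  rw [ht]
  exact_mod_cast htm

end Pool.Agent.Results.MP_71fd89_ag.GeneralBound
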