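import Mathlib
import Pool.Agent.Work.MP_71fd89_ag.JGen

/-! # The strong Jacobi bound at components where any `n - 2` linearized equations
are independent -/

set_option autoImplicit false

namespace Pool.Agent.Results.MP_71fd89_ag.GeneralPosition

/-- For `n` ordinary differential polynomials in `n` unknowns, `n` at least `4`, over a
differential field of characteristic zero, let `P` be a component (minimal prime over the
differential ideal generated by them) of finite transcendence degree such that, for every set `U`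
of `n - 2` indices, the gradients modulo `P` of all derivatives of the `u i`, `i` in `U`, are
linearly independent. Then the tropical determinant of the order matrix (strong convention, absent
variable = bottom) is finite and bounds the transcendence degree. -/
theorem result :
  ∀ (K : Type) [Field K] [CharZero K] (d : Derivation ℤ K K) (n : ℕ), 4 ≤ n →
    ∀ (D : Derivation ℤ (MvPolynomial (Fin n × ℕ) K) (MvPolynomial (Fin n × ℕ) K)),
    (∀ c : K, D (MvPolynomial.C c) = MvPolynomial.C (d c)) →
    (∀ j : Fin n, ∀ r : ℕ, D (MvPolynomial.X (j, r)) = MvPolynomial.X (j, r + 1)) →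
    ∀ (u : Fin n → MvPolynomial (Fin n × ℕ) K),
    ∀ P ∈ (Ideal.span {g : MvPolynomial (Fin n × ℕ) K |
        ∃ (i : Fin n) (k : ℕ), g = (⇑D)^[k] (u i)}).minimalPrimes,
    Algebra.trdeg K (MvPolynomial (Fin n × ℕ) K ⧸ P) < Cardinal.aleph0 →
    (∀ U : Finset (Fin n), U.card + 2 = n →
      LinearIndependent (MvPolynomial (Fin n × ℕ) K ⧸ P)
      (fun (p : {i : Fin n // i ∈ U} × ℕ) (v : Fin n × ℕ) =>
        Ideal.Quotient.mk P (MvPolynomial.pderiv v ((⇑D)^[p.2] (u p.1))))) →
    ∃ m : ℕ,
      (Finset.univ.sup (fun ρ : Equiv.Perm (Fin n) =>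
          ∑ i : Fin n, (u i).vars.sup
            (fun v => if v.1 = ρ i then (v.2 : WithBot ℕ) else (⊥ : WithBot ℕ)))) =
              (m : WithBot ℕ) ∧
      Algebra.trdeg K (MvPolynomial (Fin n × ℕ) K ⧸ P) ≤ (m : Cardinal) := by
  intro K _ _ d n hn D hDC hDX u P hP hfin hLI
  obtain ⟨t, ht⟩ := Cardinal.lt_aleph0.1 hfin
  have hPp : P.IsPrime := hP.1.1
  have hsub : ∀ U : Finset (Fin n), U.card + 2 ≤ n → ∃ U' : Finset (Fin n), U ⊆ U' ∧
      U'.card + 2 = n := by
    intro U hU
    obtain ⟨U', h1, h2⟩ := Finset.exists_superset_card_eq (s := U) (n := n - 2) (by omega)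
      (by rw [Fintype.card_fin]; omega)
    exact ⟨U', h1, by omega⟩
  have hLI' : ∀ U : Finset (Fin n), U.card + 2 ≤ n →
      LinearIndependent (MvPolynomial (Fin n × ℕ) K ⧸ P)
      (fun p : {i // i ∈ U} × ℕ => Pool.Agent.JB.lin (Pool.Agent.JB.ofDerivation D) u P
        (p.1, p.2)) := by
    intro U hU
    obtain ⟨U', h1, h2⟩ := hsub U hU
    have h3 := hLI U' h2
    let ι : {i // i ∈ U} × ℕ → {i // i ∈ U'} × ℕ := fun p => (⟨p.1, h1 p.1.2⟩, p.2)
    have hι : Function.Injective ι := by
      rintro ⟨⟨i, hi⟩, s⟩ ⟨⟨i', hi'⟩, s'⟩ h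
      simp only [ι, Prod.mk.injEq, Subtype.mk.injEq] at h
      obtain ⟨rfl, rfl⟩ := h
      rfl
    exact LinearIndependent.comp h3 ι hι
  have hu : ∀ i, u i ≠ 0 := by
    intro i h0
    have h1 := (hLI' {i} (by rw [Finset.card_singleton]; omega)).ne_zero
      (⟨i, Finset.mem_singleton_self i⟩, 0)
    apply h1
    funext v
    simp only [Pool.Agent.JB.lin, Function.iterate_zero, id_eq, h0, map_zero]
    rfl
  obtain ⟨m, hm, htm⟩ := Pool.Agent.JB.tdet_of_potentials u t (fun α β hf =>
    Pool.Agent.JB.red_general (by omega) (Pool.Agent.JB.ofDerivation d)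
      (Pool.Agent.JB.ofDerivation D) hDC hDX u P hP t ht hu
      (fun U _ hU2 => hLI' U hU2) α β hf)
  refine ⟨m, hm, ?_⟩
  rw [ht]
  exact_mod_cast htm

end Pool.Agent.Results.MP_71fd89_ag.GeneralPosition
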