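import Mathlib
import Pool.Agent.Work.MP_71fd89_ag.JBMain

/-! # The strong Jacobi bound for three nonzero differential polynomials in three unknowns -/

set_option autoImplicit false

namespace Pool.Agent.Results.MP_71fd89_ag.JacobiThree

/-- For three nonzero ordinary differential polynomials in three unknowns over a differential
field of characteristic zero, every component (minimal prime over the differential ideal
generated by them) of finite transcendence degree has degree at most the tropical determinant of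
the order matrix (strong convention, absent variable = bottom), which is then finite. -/
theorem result :
  ∀ (K : Type) [Field K] [CharZero K] (d : Derivation ℤ K K)
    (D : Derivation ℤ (MvPolynomial (Fin 3 × ℕ) K) (MvPolynomial (Fin 3 × ℕ) K)),
    (∀ c : K, D (MvPolynomial.C c) = MvPolynomial.C (d c)) →
    (∀ j : Fin 3, ∀ r : ℕ, D (MvPolynomial.X (j, r)) = MvPolynomial.X (j, r + 1)) →
    ∀ (u : Fin 3 → MvPolynomial (Fin 3 × ℕ) K), (∀ i : Fin 3, u i ≠ 0) →
    ∀ P ∈ (Ideal.span {g : MvPolynomial (Fin 3 × ℕ) K |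
        ∃ (i : Fin 3) (k : ℕ), g = (⇑D)^[k] (u i)}).minimalPrimes,
    Algebra.trdeg K (MvPolynomial (Fin 3 × ℕ) K ⧸ P) < Cardinal.aleph0 →
    ∃ m : ℕ,
      (Finset.univ.sup (fun ρ : Equiv.Perm (Fin 3) =>
          ∑ i : Fin 3, (u i).vars.sup
            (fun v => if v.1 = ρ i then (v.2 : WithBot ℕ) else (⊥ : WithBot ℕ)))) =
              (m : WithBot ℕ) ∧
      Algebra.trdeg K (MvPolynomial (Fin 3 × ℕ) K ⧸ P) ≤ (m : Cardinal) := by
  intro K _ _ d D hDC hDX u hu P hP hfin
  obtain ⟨t, ht⟩ := Cardinal.lt_aleph0.1 hfin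
  obtain ⟨m, hm, htm⟩ := Pool.Agent.JB.tdet_of_potentials u t (by
    intro α β hf
    obtain ⟨i1, i2, i3, h13, h21, h32, hle, hsum⟩ := Pool.Agent.JB.sort_three α
    have h := Pool.Agent.JB.red_bound (n := 3) (by norm_num) (Pool.Agent.JB.ofDerivation d)
      (Pool.Agent.JB.ofDerivation D) hDC hDX u P hP t ht α β hf i1 i3 h13 (α i2) (α i1)
      hle h21 le_rfl (hu i3)
    rw [hsum]
    push_cast at h
    linarith)
  refine ⟨m, hm, ?_⟩
  rw [ht]
  exact_mod_cast htm

end Pool.Agent.Results.MP_71fd89_ag.JacobiThree
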